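import Pool.Agent.Helper30.UP.St

set_option autoImplicit false

noncomputable section

/-! Project UP (MP_e73f90_co): module D1 (chain lemma). -/

namespace Pool.Agent.Helper6.UP

open Finset Pool.Agent.Helper30.UP
open scoped Classical

variable {c k : ℕ}

theorem D1_card (W : Submodule (ZMod 2) (E c)) :
    Nat.card W = 2 ^ Module.finrank (ZMod 2) W := by
  rw [Module.natCard_eq_pow_finrank (K := ZMod 2) (V := W), Nat.card_zmod]

theorem D1_sup (Y W : Submodule (ZMod 2) (E c)) :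
    Nat.card Y * Nat.card W = Nat.card ↥(Y ⊔ W) * Nat.card ↥(Y ⊓ W) := by
  rw [D1_card, D1_card, D1_card, D1_card, ← pow_add, ← pow_add,
    Submodule.finrank_sup_add_finrank_inf_eq]

theorem D1_ratio {Y Z : Submodule (ZMod 2) (E c)} (h : Z ≤ Y) (W : Submodule (ZMod 2) (E c)) :
    Nat.card ↥(Y ⊓ W) * Nat.card Z ≤ Nat.card ↥(Z ⊓ W) * Nat.card Y := by
  have h1 := D1_sup Z (Y ⊓ W)
  have h2 : Nat.card ↥(Z ⊔ (Y ⊓ W)) ≤ Nat.card Y := card_mono (sup_le h inf_le_left)
  have h3 : Nat.card ↥(Z ⊓ (Y ⊓ W)) ≤ Nat.card ↥(Z ⊓ W) :=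
    card_mono (le_inf inf_le_left (inf_le_right.trans inf_le_right))
  calc Nat.card ↥(Y ⊓ W) * Nat.card Z = Nat.card ↥(Z ⊔ (Y ⊓ W)) * Nat.card ↥(Z ⊓ (Y ⊓ W)) := by
        rw [← h1, mul_comm]
    _ ≤ Nat.card Y * Nat.card ↥(Z ⊓ W) := Nat.mul_le_mul h2 h3
    _ = _ := mul_comm _ _

theorem D1_half {Y W : Submodule (ZMod 2) (E c)} (h : ¬ Y ≤ W) :
    2 * Nat.card ↥(Y ⊓ W) ≤ Nat.card Y := by
  have h1 : Y ⊓ W < Y := lt_of_le_of_ne inf_le_left fun h2 => h (inf_eq_left.1 h2)
  have h2 := Submodule.finrank_lt_finrank_of_lt h1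
  rw [D1_card, D1_card, ← pow_succ']
  exact Nat.pow_le_pow_right (by norm_num) h2

theorem D1_perp (Y W : Submodule (ZMod 2) (E c)) :
    Nat.card Y ≤ Nat.card (perp W) * Nat.card ↥(Y ⊓ W) := by
  have h1 := D1_sup Y W
  have h2 : Nat.card ↥(Y ⊔ W) ≤ 2 ^ c := by
    rw [← card_top]
    exact card_mono le_top
  have h3 := card_perp W
  have h4 : 0 < Nat.card W := card_pos W
  refine Nat.le_of_mul_le_mul_left ?_ h4
  calc Nat.card W * Nat.card Y = Nat.card ↥(Y ⊔ W) * Nat.card ↥(Y ⊓ W) := by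
        rw [← h1, mul_comm]
    _ ≤ 2 ^ c * Nat.card ↥(Y ⊓ W) := Nat.mul_le_mul_right _ h2
    _ = Nat.card W * (Nat.card (perp W) * Nat.card ↥(Y ⊓ W)) := by rw [← h3, mul_assoc]

theorem D1_avoid (W : Fin k → Submodule (ZMod 2) (E c)) (Y : Submodule (ZMod 2) (E c))
    (L : Finset (Fin k)) (h : ∑ l ∈ L, Nat.card ↥(Y ⊓ W l) < Nat.card Y) :
    ∃ x ∈ Y, ∀ l ∈ L, x ∉ W l := by
  by_contra hcon
  push Not at hcon
  have h1 : el Y ⊆ L.biUnion fun l => el (Y ⊓ W l) := by
    intro x hx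
    rw [mem_el] at hx
    obtain ⟨l, hl, hxl⟩ := hcon x hx
    rw [mem_biUnion]
    exact ⟨l, hl, (mem_el _ _).2 ⟨hx, hxl⟩⟩
  have h2 := (card_le_card h1).trans card_biUnion_le
  rw [card_el] at h2
  have h3 : ∑ l ∈ L, (el (Y ⊓ W l)).card = ∑ l ∈ L, Nat.card ↥(Y ⊓ W l) :=
    sum_congr rfl fun l _ => card_el _
  rw [h3] at h2
  omega

theorem D1_cons {W : Fin k → Submodule (ZMod 2) (E c)} {Y Z : Submodule (ZMod 2) (E c)} {m : ℕ}
    (hZY : Z ≤ Y) {x : E c} (hx : x ∈ Y) (hx0 : x ≠ 0)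
    (hJ : ∀ z ∈ Z, Jx W x ⊂ Jx W z) (h : Chn W Z m) : Chn W Y (m + 1) := by
  obtain ⟨y, hy1, hy2⟩ := h
  refine ⟨Fin.cons x y, ?_, ?_⟩
  · intro j
    refine Fin.cases ?_ (fun j => ?_) j
    · exact ⟨hx, hx0⟩
    · exact ⟨hZY (hy1 j).1, (hy1 j).2⟩
  · intro i j
    refine Fin.cases ?_ (fun i => ?_) i
    · refine Fin.cases ?_ (fun j => ?_) j
      · intro hij
        exact absurd hij (lt_irrefl _)
      · intro _
        exact hJ _ (hy1 j).1
    · refine Fin.cases ?_ (fun j => ?_) j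
      · intro hij
        exact absurd hij (Fin.not_lt_zero _)
      · intro hij
        exact hy2 i j (Fin.succ_lt_succ_iff.1 hij)

theorem D1_kle {W : Fin k → Submodule (ZMod 2) (E c)} {Y Z : Submodule (ZMod 2) (E c)}
    (h : Z ≤ Y) : (univ.filter (fun i => ¬ Z ≤ W i)).card ≤
      (univ.filter (fun i => ¬ Y ≤ W i)).card := by
  refine card_le_card fun i hi => ?_
  rw [mem_filter] at hi ⊢
  exact ⟨hi.1, fun h1 => hi.2 (h.trans h1)⟩

theorem hD1 (h0 : StD0) : StD1 := by
  intro K c k W H hK hkK hH hp hint m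
  have hK1 : (1 : ℝ) ≤ 2 * K := by
    have : (1 : ℝ) ≤ K := by exact_mod_cast hK
    linarith
  have hH0 : (0 : ℝ) ≤ H := by linarith
  induction m with
  | zero =>
    intro Y hY
    left
    refine ⟨∅, rfl, by simp, ?_⟩
    have hbot : ∀ y ∈ Y, y = 0 := by
      intro y hy
      by_contra hy0
      apply hY
      refine ⟨fun _ => y, fun _ => ⟨hy, hy0⟩, ?_⟩
      intro i j hij
      have h1 := i.2
      have h2 := j.2
      have h3 : (i : ℕ) < j := hij
      omega
    have h1 : Y = ⊥ := by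
      rw [Submodule.eq_bot_iff]
      exact hbot
    rw [h1, prod_empty]
    have h2 : Nat.card (⊥ : Submodule (ZMod 2) (E c)) = 1 := by
      rw [D1_card, finrank_bot, pow_zero]
    rw [h2]
    norm_num
  | succ m ih =>
    intro Y hY
    have hpow : H ^ m ≤ H ^ (m + 1) := pow_le_pow_right₀ hH (Nat.le_succ m)
    have hHm : 1 ≤ H ^ m := one_le_pow₀ hH
    by_cases hYb : Y = ⊥
    · right
      subst hYb
      have h2 : Nat.card (⊥ : Submodule (ZMod 2) (E c)) = 1 := by
        rw [D1_card, finrank_bot, pow_zero]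
      rw [h2, Nat.cast_one, one_mul]
      have h3 : (1 : ℝ) ≤ (2 * K : ℝ) ^ (univ.filter (fun i => ¬ (⊥ : Submodule (ZMod 2) (E c)) ≤
        W i)).card := one_le_pow₀ hK1
      have h4 : H ≤ H ^ (m + 1) := by
        rw [pow_succ]
        nlinarith
      nlinarith [pow_nonneg hH0 (m + 1)]
    obtain ⟨Z, hZY, hZ1, hZ2, hZ3⟩ := h0 K c k W Y hK
    have hcardY : 0 < Nat.card Y := card_pos Y
    have hcardZ : 0 < Nat.card Z := card_pos Z
    by_cases hZe : Z = Y
    · -- first case
      subst hZe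
      have hex : ∃ i, ¬ Z ≤ W i := by
        by_contra hcon
        push Not at hcon
        apply hYb
        rw [Submodule.eq_bot_iff]
        intro x hx
        exact hint x fun i => hcon i hx
      obtain ⟨i, hi⟩ := hex
      have hsum : ∑ l ∈ univ.filter (fun i => ¬ Z ≤ W i), Nat.card ↥(Z ⊓ W l) < Nat.card Z := by
        have h1 : ∑ l ∈ univ.filter (fun i => ¬ Z ≤ W i), 2 * K * Nat.card ↥(Z ⊓ W l) ≤
            (univ.filter (fun i : Fin k => ¬ Z ≤ W i)).card • Nat.card Z :=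
          sum_le_card_nsmul _ _ _ fun l hl => (hZ2 l (mem_filter.1 hl).2).le
        rw [← mul_sum, smul_eq_mul] at h1
        have h2 : (univ.filter (fun i : Fin k => ¬ Z ≤ W i)).card ≤ K :=
          ((card_filter_le _ _).trans (by simp)).trans hkK
        have h3 : 2 * K * (∑ l ∈ univ.filter (fun i => ¬ Z ≤ W i), Nat.card ↥(Z ⊓ W l)) ≤
            K * Nat.card Z := h1.trans (Nat.mul_le_mul_right _ h2)
        have h4 : 2 * (∑ l ∈ univ.filter (fun i => ¬ Z ≤ W i), Nat.card ↥(Z ⊓ W l)) ≤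
            Nat.card Z := by
          refine Nat.le_of_mul_le_mul_left (c := K) ?_ (by omega)
          calc K * (2 * (∑ l ∈ univ.filter (fun i => ¬ Z ≤ W i), Nat.card ↥(Z ⊓ W l))) =
              2 * K * (∑ l ∈ univ.filter (fun i => ¬ Z ≤ W i), Nat.card ↥(Z ⊓ W l)) := by ring
            _ ≤ _ := h3
        omega
      obtain ⟨x, hxY, hxW⟩ := D1_avoid W Z _ hsum
      have hxi : x ∉ W i := hxW i (mem_filter.2 ⟨mem_univ _, hi⟩)
      have hx0 : x ≠ 0 := fun h => hxi (by rw [h]; exact (W i).zero_mem)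
      have hnc : ¬ Chn W (Z ⊓ W i) (m + 1) := by
        intro hc
        apply hY
        refine D1_cons inf_le_left hxY hx0 ?_ hc
        intro z hz
        rw [ssubset_iff_of_subset]
        · refine ⟨i, mem_filter.2 ⟨mem_univ _, hz.2⟩, fun h => hxi (mem_filter.1 h).2⟩
        · intro l hl
          have hl' : x ∈ W l := (mem_filter.1 hl).2
          refine mem_filter.2 ⟨mem_univ _, ?_⟩
          have hYl : Z ≤ W l := by
            by_contra hcon
            exact hxW l (mem_filter.2 ⟨mem_univ _, hcon⟩) hl'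
          exact hYl hz.1
      have hle : (Nat.card Z : ℝ) ≤ Nat.card (perp (W i)) * Nat.card ↥(Z ⊓ W i) := by
        exact_mod_cast D1_perp Z (W i)
      rcases ih (Z ⊓ W i) hnc with ⟨I, hI1, hI2, hI3⟩ | hB
      · left
        have hiI : i ∉ I := fun h => hI2 i h inf_le_right
        refine ⟨insert i I, ?_, ?_, ?_⟩
        · rw [card_insert_of_notMem hiI, hI1]
        · intro l hl
          rcases mem_insert.1 hl with rfl | hl
          · exact hi
          · exact fun h => hI2 l hl (inf_le_left.trans h)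
        · rw [prod_insert hiI]
          exact hle.trans (mul_le_mul_of_nonneg_left hI3 (Nat.cast_nonneg _))
      · right
        have h1 : (2 * K : ℝ) ^ (univ.filter (fun l => ¬ (Z ⊓ W i) ≤ W l)).card ≤
            (2 * K : ℝ) ^ (univ.filter (fun l => ¬ Z ≤ W l)).card :=
          pow_le_pow_right₀ hK1 (D1_kle inf_le_left)
        have h2 : (Nat.card Z : ℝ) * H ≤ H * ((Nat.card ↥(Z ⊓ W i) : ℝ) * H) := by
          have h3 : (Nat.card Z : ℝ) ≤ H * Nat.card ↥(Z ⊓ W i) :=
            hle.trans (mul_le_mul_of_nonneg_right (hp i) (Nat.cast_nonneg _))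
          nlinarith
        calc (Nat.card Z : ℝ) * H ≤ H * ((Nat.card ↥(Z ⊓ W i) : ℝ) * H) := h2
          _ ≤ H * ((2 * K : ℝ) ^ (univ.filter (fun l => ¬ (Z ⊓ W i) ≤ W l)).card * H ^ m) :=
            mul_le_mul_of_nonneg_left hB hH0
          _ ≤ H * ((2 * K : ℝ) ^ (univ.filter (fun l => ¬ Z ≤ W l)).card * H ^ m) :=
            mul_le_mul_of_nonneg_left (mul_le_mul_of_nonneg_right h1 (by positivity)) hH0
          _ = _ := by ring
    · -- second case
      obtain ⟨i, hi, hZi⟩ : ∃ i, ¬ Y ≤ W i ∧ Z ≤ W i := by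
        rcases hZ1 with h | h
        · exact absurd h hZe
        · exact h
      right
      have hiL : i ∉ univ.filter (fun l => ¬ Z ≤ W l) := fun h => (mem_filter.1 h).2 hZi
      have hL : (univ.filter (fun l : Fin k => ¬ Z ≤ W l)).card + 1 ≤ K := by
        have h1 : (insert i (univ.filter (fun l : Fin k => ¬ Z ≤ W l))).card ≤ k := by
          refine (card_le_univ _).trans ?_
          simp
        rw [card_insert_of_notMem hiL] at h1
        exact h1.trans hkK
      have hsum : ∑ l ∈ insert i (univ.filter (fun l => ¬ Z ≤ W l)), Nat.card ↥(Y ⊓ W l) <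
          Nat.card Y := by
        rw [sum_insert hiL]
        have h1 := D1_half hi
        have h2 : ∀ l ∈ univ.filter (fun l => ¬ Z ≤ W l),
            2 * K * Nat.card ↥(Y ⊓ W l) ≤ Nat.card Y := by
          intro l hl
          have h3 := hZ2 l (mem_filter.1 hl).2
          have h4 := D1_ratio hZY (W l)
          refine Nat.le_of_mul_le_mul_right (c := Nat.card Z) ?_ hcardZ
          calc 2 * K * Nat.card ↥(Y ⊓ W l) * Nat.card Z =
              2 * K * (Nat.card ↥(Y ⊓ W l) * Nat.card Z) := by ring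
            _ ≤ 2 * K * (Nat.card ↥(Z ⊓ W l) * Nat.card Y) := Nat.mul_le_mul_left _ h4
            _ = 2 * K * Nat.card ↥(Z ⊓ W l) * Nat.card Y := by ring
            _ ≤ Nat.card Z * Nat.card Y := Nat.mul_le_mul_right _ h3.le
            _ = _ := mul_comm _ _
        have h5 := sum_le_card_nsmul _ _ _ h2
        rw [← mul_sum, smul_eq_mul] at h5
        generalize hS : (∑ l ∈ univ.filter (fun l => ¬ Z ≤ W l), Nat.card ↥(Y ⊓ W l)) = S at h5 ⊢
        generalize hA : Nat.card ↥(Y ⊓ W i) = A at h1 ⊢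
        generalize hN : Nat.card Y = N at h1 h5 hcardY ⊢
        generalize hq : (univ.filter (fun l : Fin k => ¬ Z ≤ W l)).card = t at h5 hL
        have h6 : 2 * K * S + N ≤ K * N := by
          calc 2 * K * S + N ≤ t * N + N := Nat.add_le_add_right h5 _
            _ = (t + 1) * N := by ring
            _ ≤ K * N := Nat.mul_le_mul_right _ hL
        have h7 : 2 * S < N := by
          by_contra hcon
          rw [not_lt] at hcon
          have h8 : K * N ≤ K * (2 * S) := Nat.mul_le_mul_left _ hcon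
          have h9 : K * (2 * S) = 2 * K * S := by ring
          omega
        omega
      obtain ⟨x, hxY, hxW⟩ := D1_avoid W Y _ hsum
      have hxi : x ∉ W i := hxW i (mem_insert_self _ _)
      have hx0 : x ≠ 0 := fun h => hxi (by rw [h]; exact (W i).zero_mem)
      have hnc : ¬ Chn W Z (m + 1) := by
        intro hc
        apply hY
        refine D1_cons hZY hxY hx0 ?_ hc
        intro z hz
        rw [ssubset_iff_of_subset]
        · refine ⟨i, mem_filter.2 ⟨mem_univ _, hZi hz⟩, fun h => hxi (mem_filter.1 h).2⟩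
        · intro l hl
          have hl' : x ∈ W l := (mem_filter.1 hl).2
          refine mem_filter.2 ⟨mem_univ _, ?_⟩
          have hYl : Z ≤ W l := by
            by_contra hcon
            exact hxW l (mem_insert_of_mem (mem_filter.2 ⟨mem_univ _, hcon⟩)) hl'
          exact hYl hz
      have hZ3' : (Nat.card Y : ℝ) * (2 * K : ℝ) ^ (univ.filter (fun l => ¬ Z ≤ W l)).card ≤
          (2 * K : ℝ) ^ (univ.filter (fun l => ¬ Y ≤ W l)).card * Nat.card Z := by
        exact_mod_cast hZ3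
      have hkZ : (1 : ℝ) ≤ (2 * K : ℝ) ^ (univ.filter (fun l => ¬ Z ≤ W l)).card :=
        one_le_pow₀ hK1
      have hkY : (0 : ℝ) ≤ (2 * K : ℝ) ^ (univ.filter (fun l => ¬ Y ≤ W l)).card := by positivity
      have hYn : (0 : ℝ) ≤ Nat.card Y := Nat.cast_nonneg _
      rcases ih Z hnc with ⟨I, hI1, hI2, hI3⟩ | hB
      · have h1 : (Nat.card Z : ℝ) ≤ H ^ m := by
          refine hI3.trans ?_
          rw [← hI1, ← prod_const]
          exact prod_le_prod (fun l _ => Nat.cast_nonneg _) fun l _ => hp l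
        have h2 : (Nat.card Y : ℝ) ≤ (2 * K : ℝ) ^ (univ.filter (fun l => ¬ Y ≤ W l)).card *
            H ^ m := by
          calc (Nat.card Y : ℝ) ≤ (Nat.card Y : ℝ) *
              (2 * K : ℝ) ^ (univ.filter (fun l => ¬ Z ≤ W l)).card := le_mul_of_one_le_right hYn hkZ
            _ ≤ _ := hZ3'
            _ ≤ _ := mul_le_mul_of_nonneg_left h1 hkY
        calc (Nat.card Y : ℝ) * H ≤ ((2 * K : ℝ) ^ (univ.filter (fun l => ¬ Y ≤ W l)).card *
            H ^ m) * H := mul_le_mul_of_nonneg_right h2 hH0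
          _ = _ := by ring
      · have hpos : (0 : ℝ) < (2 * K : ℝ) ^ (univ.filter (fun l => ¬ Z ≤ W l)).card := by
          linarith
        refine le_of_mul_le_mul_right ?_ hpos
        calc (Nat.card Y : ℝ) * H * (2 * K : ℝ) ^ (univ.filter (fun l => ¬ Z ≤ W l)).card =
            ((Nat.card Y : ℝ) * (2 * K : ℝ) ^ (univ.filter (fun l => ¬ Z ≤ W l)).card) * H := by
              ring
          _ ≤ ((2 * K : ℝ) ^ (univ.filter (fun l => ¬ Y ≤ W l)).card * Nat.card Z) * H :=
            mul_le_mul_of_nonneg_right hZ3' hH0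
          _ = (2 * K : ℝ) ^ (univ.filter (fun l => ¬ Y ≤ W l)).card * (Nat.card Z * H) := by ring
          _ ≤ (2 * K : ℝ) ^ (univ.filter (fun l => ¬ Y ≤ W l)).card *
              ((2 * K : ℝ) ^ (univ.filter (fun l => ¬ Z ≤ W l)).card * H ^ m) :=
            mul_le_mul_of_nonneg_left hB hkY
          _ ≤ (2 * K : ℝ) ^ (univ.filter (fun l => ¬ Y ≤ W l)).card *
              ((2 * K : ℝ) ^ (univ.filter (fun l => ¬ Z ≤ W l)).card * H ^ (m + 1)) :=
            mul_le_mul_of_nonneg_left (mul_le_mul_of_nonneg_left hpow hpos.le) hkY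
          _ = _ := by ring

end Pool.Agent.Helper6.UP
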